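import Pool.Agent.H72.UV.Targets
import Pool.Agent.H72.UV.Basic

/-!
# Module CNT: finitely many wild types give countably many threads up to isomorphism
-/

set_option autoImplicit false

open Set Filter Topology

namespace Pool.Agent.H88.UV

open Pool.Agent.H72.UV
open Pool.Agent.H71 (Fx orb acl)

/-! ### two general lemmas -/

/-- labelled countable sets with equally many elements of every label -/
lemma exists_bijOn_label {α β L : Type} (S : Set α) (S' : Set β) (hS : S.Countable)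
    (hS' : S'.Countable) (lab : α → L) (lab' : β → L)
    (h : ∀ q, {a | a ∈ S ∧ lab a = q}.encard = {b | b ∈ S' ∧ lab' b = q}.encard) :
    Nonempty (β) → ∃ f : α → β, BijOn f S S' ∧ ∀ a ∈ S, lab' (f a) = lab a := by
  classical
  rintro ⟨b0⟩
  have key : ∀ q, Nonempty ({a | a ∈ S ∧ lab a = q} ≃ {b | b ∈ S' ∧ lab' b = q}) := by
    intro q
    have h1 := h q
    rw [← Cardinal.eq]
    have c1 : ({a | a ∈ S ∧ lab a = q}).Countable := hS.mono fun a ha => ha.1
    have c2 : ({b | b ∈ S' ∧ lab' b = q}).Countable := hS'.mono fun a ha => ha.1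
    have d1 := Cardinal.le_aleph0_iff_set_countable.2 c1
    have d2 := Cardinal.le_aleph0_iff_set_countable.2 c2
    exact Cardinal.toENat_injOn d1 d2 h1
  let e := fun q => Classical.choice (key q)
  refine ⟨fun a => if ha : a ∈ S then (e (lab a) ⟨a, ha, rfl⟩ : β) else b0, ⟨?_, ?_, ?_⟩, ?_⟩
  · intro a ha
    simp only [ha, dif_pos]
    exact (e (lab a) ⟨a, ha, rfl⟩).2.1
  · intro a ha a' ha' haa
    simp only [ha, ha', dif_pos] at haa
    have l1 := (e (lab a) ⟨a, ha, rfl⟩).2.2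
    have l2 := (e (lab a') ⟨a', ha', rfl⟩).2.2
    have hl : lab a = lab a' := by rw [← l1, ← l2, haa]
    have : ∀ (q : L) (hq : lab a = q) (hq' : lab a' = q),
        (e q ⟨a, ha, hq⟩ : β) = (e q ⟨a', ha', hq'⟩ : β) → a = a' := by
      intro q hq hq' h3
      have := (e q).injective (Subtype.ext h3)
      exact congrArg Subtype.val this
    refine this (lab a') hl rfl ?_
    rw [← haa]
    have h4 : ∀ (q : L) (hq : lab a = q), (e q ⟨a, ha, hq⟩ : β) = (e (lab a) ⟨a, ha, rfl⟩ : β) := by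
      rintro q rfl
      rfl
    exact h4 _ hl
  · intro b hb
    have h5 := ((e (lab' b)).symm ⟨b, hb, rfl⟩).2
    refine ⟨((e (lab' b)).symm ⟨b, hb, rfl⟩ : α), h5.1, ?_⟩
    simp only [h5.1, dif_pos]
    have h4 : ∀ (q : L) (a : α) (ha : a ∈ S) (hq : lab a = q),
        (e (lab a) ⟨a, ha, rfl⟩ : β) = (e q ⟨a, ha, hq⟩ : β) := by
      rintro q a ha rfl
      rfl
    rw [h4 (lab' b) _ h5.1 h5.2]
    simp
  · intro a ha
    simp only [ha, dif_pos]
    exact (e (lab a) ⟨a, ha, rfl⟩).2.2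

/-! ### the relation between points of threads -/

section rel

variable {G : ℕ → Subgroup (Equiv.Perm ℕ)}

lemma SeqT.refl (p : ℕ → Equiv.Perm ℕ) (x : ℕ) : SeqT G p p x x :=
  fun _ => Pool.Agent.H71.self_mem_orb _ _ _

lemma SeqT.symm {p p' : ℕ → Equiv.Perm ℕ} {x x' : ℕ} (h : SeqT G p p' x x') :
    SeqT G p' p x' x := fun m => Pool.Agent.H71.orb_symm (h m)

lemma SeqT.trans {p p' p'' : ℕ → Equiv.Perm ℕ} {x x' x'' : ℕ} (h : SeqT G p p' x x')
    (h' : SeqT G p' p'' x' x'') : SeqT G p p'' x x'' :=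
  fun m => Pool.Agent.H71.orb_trans (h m) (h' m)

lemma Mat.seqT {p p' : ℕ → Equiv.Perm ℕ} {S S' : Set ℕ} {f : ℕ → ℕ} (h : Mat G p p' S S' f)
    {x : ℕ} (hx : x ∈ S) : SeqT G p p' x (f x) := by
  intro m
  obtain ⟨g, hg, hg2⟩ := h.2 m {x} (by simpa using hx)
  rw [mem_orb_empty]
  exact ⟨g, hg, (hg2 x (by simp)).symm⟩

/-- points of threads -/
structure Pt (G : ℕ → Subgroup (Equiv.Perm ℕ)) where
  p : ℕ → Equiv.Perm ℕ
  x : ℕ
  hp : Thread G p
  hx : x ∉ Kinf (cj G p)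

/-- the label of a set of points of a thread -/
def lab (G : ℕ → Subgroup (Equiv.Perm ℕ)) (p : ℕ → Equiv.Perm ℕ) (C : Set ℕ) : Set (Pt G) :=
  {t | ∃ z ∈ C, ∃ y ∈ comp (cj G t.p) t.x, SeqT G p t.p z y}

/-- the components of a thread -/
def comps (G : ℕ → Subgroup (Equiv.Perm ℕ)) (p : ℕ → Equiv.Perm ℕ) : Set (Set ℕ) :=
  {C | ∃ x, x ∉ Kinf (cj G p) ∧ C = comp (cj G p) x}

lemma comps_countable (p : ℕ → Equiv.Perm ℕ) : (comps G p).Countable := by
  refine (countable_range fun x => comp (cj G p) x).mono ?_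
  rintro _ ⟨x, -, rfl⟩
  exact ⟨x, rfl⟩

end rel

/-- the standing facts -/
structure Facts (G : ℕ → Subgroup (Equiv.Perm ℕ)) : Prop where
  comp_self : ∀ p, Thread G p → ∀ x, x ∉ Kinf (cj G p) → x ∈ comp (cj G p) x
  comp_dis : ∀ p, Thread G p → ∀ x, x ∉ Kinf (cj G p) → ∀ y ∈ comp (cj G p) x, y ∉ Kinf (cj G p)
  comp_eq : ∀ p, Thread G p → ∀ x, x ∉ Kinf (cj G p) → ∀ y ∈ comp (cj G p) x,
    comp (cj G p) y = comp (cj G p) x
  kinf : ∀ p p', Thread G p → Thread G p' → ∀ x x', SeqT G p p' x x' → x ∉ Kinf (cj G p) →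
    x' ∉ Kinf (cj G p')
  mat : ∀ p p' : ℕ → Equiv.Perm ℕ, Thread G p →
    Thread G p' → ∀ x x' : ℕ, x ∉ Kinf (cj G p) → SeqT G p p' x x' →
    ∃ f : ℕ → ℕ, f x = x' ∧ Mat G p p' (comp (cj G p) x) (comp (cj G p') x') f

section facts

variable {G : ℕ → Subgroup (Equiv.Perm ℕ)}

lemma facts (hTOW : T_TOW) (hTOWC : T_TOWC) (hMATCH : T_MATCH) (hG : Tower G) : Facts G := by
  refine ⟨?_, ?_, ?_, ?_, hMATCH G hG⟩
  · intro p hp x hx
    exact ((hTOW _ (hTOWC G p hG hp).1).2.2.2.2.1 x hx).1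
  · intro p hp x hx y hy hy'
    exact Set.disjoint_left.1 ((hTOW _ (hTOWC G p hG hp).1).2.2.2.2.1 x hx).2.1 hy hy'
  · intro p hp x hx y hy
    exact ((hTOW _ (hTOWC G p hG hp).1).2.2.2.2.1 x hx).2.2 y hy
  · intro p p' hp hp' x x' hs hx hx'
    apply hx
    obtain ⟨m, hm⟩ := mem_iUnion.1 hx'
    refine mem_iUnion.2 ⟨m, ?_⟩
    rw [(hTOWC G p hG hp).2.2.1]
    rw [(hTOWC G p' hG hp').2.2.1] at hm
    exact Pool.Agent.H71.mem_acl_of_mem_orb (Pool.Agent.H71.orb_symm (hs m)) hm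

/-- being of the same kind only depends on the component -/
lemma Facts.move (F : Facts G) {p p' : ℕ → Equiv.Perm ℕ} (hp : Thread G p) (hp' : Thread G p')
    {x x' z y : ℕ} (hx : x ∉ Kinf (cj G p)) (hx' : x' ∉ Kinf (cj G p'))
    (hz : z ∈ comp (cj G p) x) (hy : y ∈ comp (cj G p') x') (h : SeqT G p p' z y) {w : ℕ}
    (hw : w ∈ comp (cj G p) x) : ∃ v ∈ comp (cj G p') x', SeqT G p p' w v := by
  have hzK := F.comp_dis p hp x hx z hz
  obtain ⟨f, -, hf⟩ := F.mat p p' hp hp' z y hzK h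
  rw [F.comp_eq p hp x hx z hz, F.comp_eq p' hp' x' hx' y hy] at hf
  exact ⟨f w, hf.1.mapsTo hw, Mat.seqT hf hw⟩

lemma Facts.lab_subset (F : Facts G) {p p' : ℕ → Equiv.Perm ℕ} (hp : Thread G p)
    (hp' : Thread G p') {x x' z y : ℕ} (hx : x ∉ Kinf (cj G p)) (hx' : x' ∉ Kinf (cj G p'))
    (hz : z ∈ comp (cj G p) x) (hy : y ∈ comp (cj G p') x') (h : SeqT G p p' z y) :
    lab G p (comp (cj G p) x) ⊆ lab G p' (comp (cj G p') x') := by
  rintro t ⟨w, hw, v, hv, hwv⟩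
  obtain ⟨u, hu, hwu⟩ := F.move hp hp' hx hx' hz hy h hw
  exact ⟨u, hu, v, hv, SeqT.trans (SeqT.symm hwu) hwv⟩

lemma Facts.lab_eq (F : Facts G) {p p' : ℕ → Equiv.Perm ℕ} (hp : Thread G p)
    (hp' : Thread G p') {x x' z y : ℕ} (hx : x ∉ Kinf (cj G p)) (hx' : x' ∉ Kinf (cj G p'))
    (hz : z ∈ comp (cj G p) x) (hy : y ∈ comp (cj G p') x') (h : SeqT G p p' z y) :
    lab G p (comp (cj G p) x) = lab G p' (comp (cj G p') x') :=
  (F.lab_subset hp hp' hx hx' hz hy h).antisymm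
    (F.lab_subset hp' hp hx' hx hy hz (SeqT.symm h))

/-- components with the same label are isomorphic -/
lemma Facts.mat_of_lab (F : Facts G) {p p' : ℕ → Equiv.Perm ℕ} (hp : Thread G p)
    (hp' : Thread G p') {C C' : Set ℕ} (hC : C ∈ comps G p) (hC' : C' ∈ comps G p')
    (h : lab G p' C' = lab G p C) : ∃ f : ℕ → ℕ, Mat G p p' C C' f := by
  obtain ⟨x, hx, rfl⟩ := hC
  obtain ⟨x', hx', rfl⟩ := hC'
  have h1 : (⟨p', x', hp', hx'⟩ : Pt G) ∈ lab G p' (comp (cj G p') x') :=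
    ⟨x', F.comp_self p' hp' x' hx', x', F.comp_self p' hp' x' hx', SeqT.refl _ _⟩
  rw [h] at h1
  obtain ⟨z, hz, y, hy, hzy⟩ := h1
  have hzK := F.comp_dis p hp x hx z hz
  obtain ⟨f, -, hf⟩ := F.mat p p' hp hp' z y hzK hzy
  have hy' : y ∈ comp (cj G p') x' := hy
  rw [F.comp_eq p hp x hx z hz, F.comp_eq p' hp' x' hx' y hy'] at hf
  exact ⟨f, hf⟩

/-- the fibres of the labels over tame components are infinite -/
lemma Facts.infinite (F : Facts G) (hTAM : T_TAM) (hG : Tower G) {p p' : ℕ → Equiv.Perm ℕ}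
    (hp : Thread G p) (hp' : Thread G p') {x : ℕ} (hx : x ∉ Kinf (cj G p))
    (ht : Tame (cj G p) x) :
    {C | C ∈ comps G p' ∧ lab G p' C = lab G p (comp (cj G p) x)}.Infinite := by
  obtain ⟨y, hy, hy2⟩ := (hTAM G hG p p' hp hp').2 x ht
  have hyK : ∀ k, y k ∉ Kinf (cj G p') := fun k => F.kinf p p' hp hp' x _ (hy k) hx
  have hinj : Function.Injective fun k => comp (cj G p') (y k) := by
    intro k k' hkk
    by_contra hne
    apply hy2 k k' hne
    have := F.comp_self p' hp' _ (hyK k')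
    have h3 : comp (cj G p') (y k) = comp (cj G p') (y k') := hkk
    rw [h3]
    exact this
  refine (infinite_range_of_injective hinj).mono ?_
  rintro _ ⟨k, rfl⟩
  refine ⟨⟨y k, hyK k, rfl⟩, ?_⟩
  exact (F.lab_eq hp hp' hx (hyK k) (F.comp_self p hp x hx) (F.comp_self p' hp' _ (hyK k))
    (hy k)).symm

end facts

/-- the labels of wild points -/
def wlab (G : ℕ → Subgroup (Equiv.Perm ℕ)) : Set (Set (Pt G)) :=
  {q | ∃ t : Pt G, Wild (cj G t.p) t.x ∧ q = lab G t.p (comp (cj G t.p) t.x)}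

lemma wlab_finite {G : ℕ → Subgroup (Equiv.Perm ℕ)} (F : Facts G)
    (h : ¬ ∃ (p : ℕ → ℕ → Equiv.Perm ℕ) (x : ℕ → ℕ), (∀ j, Thread G (p j)) ∧
      (∀ j, Wild (cj G (p j)) (x j)) ∧
      ∀ i j, i ≠ j → ∀ y ∈ comp (cj G (p i)) (x i), ¬ SeqT G (p j) (p i) (x j) y) :
    (wlab G).Finite := by
  by_contra hinf
  have hinf : (wlab G).Infinite := hinf
  apply h
  let e := hinf.natEmbedding
  have he : ∀ n, ∃ t : Pt G, Wild (cj G t.p) t.x ∧
      ((e n : Set (Pt G)) = lab G t.p (comp (cj G t.p) t.x)) := fun n => (e n).2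
  choose t ht ht2 using he
  refine ⟨fun n => (t n).p, fun n => (t n).x, fun j => (t j).hp, ht, ?_⟩
  intro i j hij y hy hs
  apply hij
  apply e.injective
  apply Subtype.ext
  rw [ht2, ht2]
  exact (F.lab_eq (t j).hp (t i).hp (t j).hx (t i).hx
    (F.comp_self _ (t j).hp _ (t j).hx) hy hs).symm

/-- threads with the same dimensions are isomorphic -/
lemma exists_mat {G : ℕ → Subgroup (Equiv.Perm ℕ)} (hGRP : T_GRP) (hTOW : T_TOW)
    (hTOWC : T_TOWC) (hMATCH : T_MATCH) (hKMAT : T_KMAT) (hTAM : T_TAM) (hLOCP : T_LOCP)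
    (hG : Tower G) {p p' : ℕ → Equiv.Perm ℕ} (hp : Thread G p) (hp' : Thread G p')
    (hD : ∀ q ∈ wlab G, {C | C ∈ comps G p ∧ lab G p C = q}.encard =
      {C | C ∈ comps G p' ∧ lab G p' C = q}.encard) :
    ∃ f : ℕ → ℕ, Mat G p p' univ univ f := by
  classical
  have F := facts hTOW hTOWC hMATCH hG
  -- all labels have the same dimension
  have aux : ∀ p p' : ℕ → Equiv.Perm ℕ, Thread G p → Thread G p' → ∀ q, q ∉ wlab G →
      {C | C ∈ comps G p ∧ lab G p C = q}.Nonempty →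
      {C | C ∈ comps G p' ∧ lab G p' C = q}.encard = ⊤ := by
    rintro p p' hp hp' q hq ⟨C, ⟨x, hx, rfl⟩, hCq⟩
    have ht : Tame (cj G p) x := by
      by_contra hnt
      exact hq ⟨⟨p, x, hp, hx⟩, ⟨hx, hnt⟩, hCq.symm⟩
    have := F.infinite hTAM hG hp hp' hx ht
    rw [hCq] at this
    exact Set.encard_eq_top_iff.2 this
  have hD' : ∀ q, {C | C ∈ comps G p ∧ lab G p C = q}.encard =
      {C | C ∈ comps G p' ∧ lab G p' C = q}.encard := by
    intro q
    by_cases hq : q ∈ wlab G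
    · exact hD q hq
    · by_cases h1 : {C | C ∈ comps G p ∧ lab G p C = q}.Nonempty
      · rw [aux p p hp hp q hq h1, aux p p' hp hp' q hq h1]
      · by_cases h2 : {C | C ∈ comps G p' ∧ lab G p' C = q}.Nonempty
        · exact absurd (Set.nonempty_of_encard_ne_zero
            (by rw [aux p' p hp' hp q hq h2]; simp)) h1
        · rw [Set.not_nonempty_iff_eq_empty.1 h1, Set.not_nonempty_iff_eq_empty.1 h2]
  obtain ⟨β, hβ, hβ2⟩ := exists_bijOn_label (comps G p) (comps G p') (comps_countable p)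
    (comps_countable p') (lab G p) (lab G p') hD' ⟨∅⟩
  have hfC : ∀ C : Set ℕ, ∃ f : ℕ → ℕ, C ∈ comps G p → Mat G p p' C (β C) f := by
    intro C
    by_cases hC : C ∈ comps G p
    · obtain ⟨f, hf⟩ := F.mat_of_lab hp hp' hC (hβ.mapsTo hC) (hβ2 C hC)
      exact ⟨f, fun _ => hf⟩
    · exact ⟨id, fun h => absurd h hC⟩
  choose fC hfC using hfC
  obtain ⟨fK, hfK⟩ := hKMAT G hG p p' hp hp'
  let f : ℕ → ℕ := fun x => if x ∈ Kinf (cj G p) then fK x else fC (comp (cj G p) x) x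
  have hfk : ∀ x, x ∈ Kinf (cj G p) → f x = fK x := fun x hx => if_pos hx
  have hfc : ∀ x, x ∉ Kinf (cj G p) → f x = fC (comp (cj G p) x) x := fun x hx => if_neg hx
  have hfc2 : ∀ x, x ∉ Kinf (cj G p) → f x ∈ β (comp (cj G p) x) := by
    intro x hx
    rw [hfc x hx]
    exact (hfC _ ⟨x, hx, rfl⟩).1.mapsTo (F.comp_self p hp x hx)
  have hβK : ∀ C ∈ comps G p', ∀ y ∈ C, y ∉ Kinf (cj G p') ∧ C = comp (cj G p') y := by
    rintro _ ⟨x', hx', rfl⟩ y hy
    exact ⟨F.comp_dis p' hp' x' hx' y hy, (F.comp_eq p' hp' x' hx' y hy).symm⟩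
  have hinj : Function.Injective f := by
    intro x y hxy
    by_cases hx : x ∈ Kinf (cj G p)
    · by_cases hy : y ∈ Kinf (cj G p)
      · rw [hfk x hx, hfk y hy] at hxy
        exact hfK.1.injOn hx hy hxy
      · exfalso
        refine (hβK _ (hβ.mapsTo ⟨y, hy, rfl⟩) _ (hfc2 y hy)).1 ?_
        rw [← hxy, hfk x hx]
        exact hfK.1.mapsTo hx
    · by_cases hy : y ∈ Kinf (cj G p)
      · exfalso
        refine (hβK _ (hβ.mapsTo ⟨x, hx, rfl⟩) _ (hfc2 x hx)).1 ?_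
        rw [hxy, hfk y hy]
        exact hfK.1.mapsTo hy
      · have h1 := (hβK _ (hβ.mapsTo ⟨x, hx, rfl⟩) _ (hfc2 x hx)).2
        have h2 := (hβK _ (hβ.mapsTo ⟨y, hy, rfl⟩) _ (hfc2 y hy)).2
        rw [hxy, ← h2] at h1
        have h3 : comp (cj G p) x = comp (cj G p) y := hβ.injOn ⟨x, hx, rfl⟩ ⟨y, hy, rfl⟩ h1
        rw [hfc x hx, hfc y hy, h3] at hxy
        refine (hfC _ ⟨y, hy, rfl⟩).1.injOn ?_ (F.comp_self p hp y hy) hxy
        rw [← h3]
        exact F.comp_self p hp x hx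
  have hsurj : Function.Surjective f := by
    intro y
    by_cases hy : y ∈ Kinf (cj G p')
    · obtain ⟨x, hx, rfl⟩ := hfK.1.surjOn hy
      exact ⟨x, hfk x hx⟩
    · obtain ⟨C, hC, hCy⟩ := hβ.surjOn (⟨y, hy, rfl⟩ : comp (cj G p') y ∈ comps G p')
      have hyC : y ∈ β C := by
        rw [hCy]
        exact F.comp_self p' hp' y hy
      obtain ⟨x, hx, hxy⟩ := (hfC C hC).1.surjOn hyC
      obtain ⟨z, hz, rfl⟩ := hC
      have hxK := F.comp_dis p hp z hz x hx
      refine ⟨x, ?_⟩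
      rw [hfc x hxK, F.comp_eq p hp z hz x hx]
      exact hxy
  refine ⟨f, ⟨mapsTo_univ _ _, hinj.injOn, surjOn_univ.2 hsurj⟩, ?_⟩
  intro m D _
  -- the local map
  have hL : Loc (G m) univ fun x => p' m (f ((p m).symm x)) := by
    have hT := hTOWC G p hG hp
    have hTc := hTOW _ hT.1
    refine hLOCP (G m) (hG.fin m) (hG.olig m) (hG.red m) univ _ ?_ ?_ ?_ ?_
    · intro x _ y _ hxy
      exact (p m).symm.injective (hinj ((p' m).injective hxy))
    · intro x _ _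
      exact subset_univ _
    · intro x _ hx
      have hz : (p m).symm x ∈ Kinf (cj G p) := by
        refine mem_iUnion.2 ⟨m, ?_⟩
        rw [hT.2.2.1]
        simpa using hx
      obtain ⟨g, hg, hg2⟩ := hfK.2 m {(p m).symm x} (by simpa using hz)
      have h3 := hg2 ((p m).symm x) (by simp)
      rw [Equiv.apply_symm_apply, hG.red m x hx g hg] at h3
      change p' m (f ((p m).symm x)) = x
      rw [hfk _ hz, h3]
    · intro x _ hx
      have hfin : (cell (G m) x).Finite := by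
        refine ((hGRP (G m) (hG.fin m) (hG.olig m)).fin {x}).subset ?_
        intro y hy
        exact hy.1
      have hfin2 : ((p m).symm '' cell (G m) x).Finite := hfin.image _
      obtain ⟨E, hE⟩ : ∃ E : Finset ℕ, (E : Set ℕ) = (p m).symm '' cell (G m) x :=
        ⟨hfin2.toFinset, by simp⟩
      have hmem : ∀ w ∈ E, w ∈ cell (cj G p m) ((p m).symm x) := by
        intro w hw
        have hw' : w ∈ (p m).symm '' cell (G m) x := by
          rw [← hE]
          exact hw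
        obtain ⟨y, hy, rfl⟩ := hw'
        rw [hT.2.2.2.1]
        simpa using hy
      have hz : (p m).symm x ∉ acl (cj G p m) ∅ := by
        rw [hT.2.2.1]
        simpa using hx
      by_cases hK : (p m).symm x ∈ Kinf (cj G p)
      · have hsub := hTc.2.2.2.1 m _ hK hz
        obtain ⟨g, hg, hg2⟩ := hfK.2 m E (fun w hw => hsub (hmem w hw))
        refine ⟨g, hg, fun y hy => ?_⟩
        have hyE : (p m).symm y ∈ E := by
          have : (p m).symm y ∈ (E : Set ℕ) := by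
            rw [hE]
            exact ⟨y, hy, rfl⟩
          exact this
        have h4 := hg2 _ hyE
        rw [Equiv.apply_symm_apply] at h4
        rw [← h4]
        change p' m (f ((p m).symm y)) = _
        rw [hfk _ (hsub (hmem _ hyE))]
      · have hsub : cell (cj G p m) ((p m).symm x) ⊆ comp (cj G p) ((p m).symm x) :=
          fun w hw => mem_iUnion.2 ⟨m, hw⟩
        obtain ⟨g, hg, hg2⟩ := (hfC _ ⟨_, hK, rfl⟩).2 m E (fun w hw => hsub (hmem w hw))
        refine ⟨g, hg, fun y hy => ?_⟩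
        have hyE : (p m).symm y ∈ E := by
          have : (p m).symm y ∈ (E : Set ℕ) := by
            rw [hE]
            exact ⟨y, hy, rfl⟩
          exact this
        have h4 := hg2 _ hyE
        rw [Equiv.apply_symm_apply] at h4
        rw [← h4]
        change p' m (f ((p m).symm y)) = _
        have h5 := hsub (hmem _ hyE)
        rw [hfc _ (F.comp_dis p hp _ hK _ h5), F.comp_eq p hp _ hK _ h5]
  obtain ⟨g, hg, hg2⟩ := hL (D.image (p m)) (subset_univ _)
  refine ⟨g, hg, fun y hy => ?_⟩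
  have h6 := hg2 _ (Finset.mem_image_of_mem _ hy)
  simpa using h6

theorem cnt (hGRP : T_GRP) (hTOW : T_TOW) (hTOWC : T_TOWC) (hMATCH : T_MATCH) (hKMAT : T_KMAT)
    (hTAM : T_TAM) (hLOCP : T_LOCP) : T_CNT := by
  classical
  intro G hG h
  have F := facts hTOW hTOWC hMATCH hG
  have hfin := wlab_finite F h
  have : Finite (wlab G) := hfin
  let dim : (ℕ → Equiv.Perm ℕ) → (wlab G → ℕ∞) := fun p q =>
    {C | C ∈ comps G p ∧ lab G p C = (q : Set (Pt G))}.encard
  let T : Set (ℕ → Equiv.Perm ℕ) := {p | Thread G p}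
  have hc : (dim '' T).Countable := Set.to_countable _
  obtain ⟨D, hD, hDT⟩ : ∃ D : Set (ℕ → Equiv.Perm ℕ), D.Countable ∧
      D ⊆ T ∧ dim '' T ⊆ dim '' D := by
    have hch : ∀ d : (wlab G → ℕ∞), ∃ p : ℕ → Equiv.Perm ℕ, d ∈ dim '' T → p ∈ T ∧ dim p = d := by
      intro d
      by_cases hd : d ∈ dim '' T
      · obtain ⟨p, hp, hpd⟩ := hd
        exact ⟨p, fun _ => ⟨hp, hpd⟩⟩
      · exact ⟨fun _ => 1, fun h => absurd h hd⟩
    choose φ hφ using hch
    refine ⟨φ '' (dim '' T), hc.image φ, ?_, ?_⟩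
    · rintro _ ⟨d, hd, rfl⟩
      exact (hφ d hd).1
    · intro d hd
      exact ⟨φ d, ⟨d, hd, rfl⟩, (hφ d hd).2⟩
  refine ⟨D, hD, fun p hp => ?_⟩
  obtain ⟨p', hp', hpp⟩ := hDT.2 ⟨p, hp, rfl⟩
  refine ⟨p', hp', hDT.1 hp', ?_⟩
  refine exists_mat hGRP hTOW hTOWC hMATCH hKMAT hTAM hLOCP hG hp (hDT.1 hp') ?_
  intro q hq
  exact (congrFun hpp ⟨q, hq⟩).symm

end Pool.Agent.H88.UV
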